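import Pool.Agent.MP_a6a8af_gt.H97.General

/-!
`X` is the union of two topological 2-spheres meeting in two antipodal points, `Y` is its
quotient by the antipodal map, a wedge of two projective planes.
-/

set_option autoImplicit false

open Set Filter Topology

namespace Pool.Agent.MP_a6a8af_gt.H97

/-- the covering space -/
abbrev X : Type :=
  {p : ℝ × ℂ × ℂ // |p.1| + ‖p.2.1‖ + ‖p.2.2‖ = 1 ∧ (p.2.1 = 0 ∨ p.2.2 = 0)}

/-- an even map separating antipodal pairs -/
def ver (x : X) : ℝ × ℂ × ℂ × ℂ × ℂ :=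
  (x.1.1 ^ 2, (x.1.1 : ℂ) * x.1.2.1, (x.1.1 : ℂ) * x.1.2.2, x.1.2.1 ^ 2, x.1.2.2 ^ 2)

/-- the base space -/
abbrev Y : Type := range ver

/-- the covering map -/
def f : X → Y := rangeFactorization ver

/-- the antipodal map -/
def σ (x : X) : X := ⟨-x.1, by simpa using x.2.1, by simpa using x.2.2⟩

theorem continuous_σ : Continuous σ := by
  unfold σ
  fun_prop

theorem continuous_ver : Continuous ver := by
  unfold ver
  fun_prop

theorem continuous_f : Continuous f := continuous_ver.rangeFactorization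

theorem surjective_f : Function.Surjective f := rangeFactorization_surjective

theorem σ_ne (x : X) : σ x ≠ x := by
  intro h
  have h1 : -x.1 = x.1 := congrArg Subtype.val h
  have h2 : x.1 = 0 := by
    have : (2 : ℝ) • x.1 = 0 := by rw [two_smul]; nth_rewrite 1 [← h1]; simp
    simpa using this
  have := x.2.1
  simp [h2] at this

theorem f_σ (x : X) : f (σ x) = f x := by
  apply Subtype.ext
  simp [f, ver, σ]

theorem f_fib (x x' : X) (h : f x = f x') : x' = x ∨ x' = σ x := by
  have h0 : ver x = ver x' := congrArg Subtype.val h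
  obtain ⟨⟨t, z, w⟩, hx1, hx2⟩ := x
  obtain ⟨⟨t', z', w'⟩, hx1', hx2'⟩ := x'
  simp only [ver, Prod.mk.injEq] at h0
  obtain ⟨h1, h2, h3, h4, h5⟩ := h0
  simp only [σ, Subtype.mk.injEq, Prod.neg_mk, Prod.mk.injEq]
  by_cases ht : t = 0
  · have ht' : t' = 0 := by
      rw [ht] at h1
      exact pow_eq_zero_iff (two_ne_zero) |>.1 (by linarith)
    simp only at hx2
    rcases hx2 with hz | hw
    · have hz' : z' = 0 := by
        rw [hz] at h4
        exact pow_eq_zero_iff (two_ne_zero) |>.1 (by rw [← h4]; simp)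
      rcases sq_eq_sq_iff_eq_or_eq_neg.1 h5.symm with e | e
      · left; simp [ht, ht', hz, hz', e]
      · right; simp [ht, ht', hz, hz', e]
    · have hw' : w' = 0 := by
        rw [hw] at h5
        exact pow_eq_zero_iff (two_ne_zero) |>.1 (by rw [← h5]; simp)
      rcases sq_eq_sq_iff_eq_or_eq_neg.1 h4.symm with e | e
      · left; simp [ht, ht', hw, hw', e]
      · right; simp [ht, ht', hw, hw', e]
  · have htc : (t : ℂ) ≠ 0 := by exact_mod_cast ht
    rcases sq_eq_sq_iff_eq_or_eq_neg.1 h1.symm with e | e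
    · left
      subst e
      exact ⟨rfl, (mul_left_cancel₀ htc h2).symm, (mul_left_cancel₀ htc h3).symm⟩
    · right
      subst e
      refine ⟨rfl, ?_, ?_⟩
      · apply mul_left_cancel₀ htc
        push_cast at h2
        linear_combination h2
      · apply mul_left_cancel₀ htc
        push_cast at h3
        linear_combination h3

/-- upper hemisphere of the first sphere -/
noncomputable def p₁ (z : Dsc) : X :=
  ⟨(1 - ‖z.1‖, z.1, 0), by simp [abs_of_nonneg (sub_nonneg.2 (norm_le z))], Or.inr rfl⟩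

/-- upper hemisphere of the second sphere -/
noncomputable def p₂ (z : Dsc) : X :=
  ⟨(1 - ‖z.1‖, 0, z.1), by simp [abs_of_nonneg (sub_nonneg.2 (norm_le z))], Or.inl rfl⟩

theorem continuous_p₁ : Continuous p₁ := by
  unfold p₁
  fun_prop

theorem continuous_p₂ : Continuous p₂ := by
  unfold p₂
  fun_prop

theorem σσ (x : X) : σ (σ x) = x := Subtype.ext (neg_neg _)

theorem upper₁ (x : X) (ht : 0 ≤ x.1.1) (hw : x.1.2.2 = 0) : ∃ z, p₁ z = x := by
  obtain ⟨⟨t, z, w⟩, hx1, hx2⟩ := x
  simp only at ht hw hx1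
  subst hw
  rw [abs_of_nonneg ht, norm_zero, add_zero] at hx1
  refine ⟨⟨z, mem_closedBall_zero_iff.2 (by linarith)⟩, Subtype.ext ?_⟩
  simp only [p₁, Prod.mk.injEq, and_true]
  linarith

theorem upper₂ (x : X) (ht : 0 ≤ x.1.1) (hw : x.1.2.1 = 0) : ∃ z, p₂ z = x := by
  obtain ⟨⟨t, z, w⟩, hx1, hx2⟩ := x
  simp only at ht hw hx1
  subst hw
  rw [abs_of_nonneg ht, norm_zero, add_zero] at hx1
  refine ⟨⟨w, mem_closedBall_zero_iff.2 (by linarith)⟩, Subtype.ext ?_⟩
  simp only [p₂, Prod.mk.injEq, and_true]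
  linarith

/-- the first sphere -/
def A : Set X := {x | x.1.2.2 = 0}
/-- the second sphere -/
def B : Set X := {x | x.1.2.1 = 0}

theorem A_eq : A = range p₁ ∪ range (σ ∘ p₁) := by
  ext x
  constructor
  · intro hx
    rcases le_total 0 x.1.1 with ht | ht
    · exact Or.inl (upper₁ x ht hx)
    · obtain ⟨z, hz⟩ := upper₁ (σ x) (by simpa [σ] using ht) (by simpa [σ, A] using hx)
      exact Or.inr ⟨z, by simp [hz, σσ]⟩
  · rintro (⟨z, rfl⟩ | ⟨z, rfl⟩) <;> simp [A, p₁, σ]

theorem B_eq : B = range p₂ ∪ range (σ ∘ p₂) := by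
  ext x
  constructor
  · intro hx
    rcases le_total 0 x.1.1 with ht | ht
    · exact Or.inl (upper₂ x ht hx)
    · obtain ⟨z, hz⟩ := upper₂ (σ x) (by simpa [σ] using ht) (by simpa [σ, B] using hx)
      exact Or.inr ⟨z, by simp [hz, σσ]⟩
  · rintro (⟨z, rfl⟩ | ⟨z, rfl⟩) <;> simp [B, p₂, σ]

theorem p₁_dneg (z : Dsc) (hz : ‖z.1‖ = 1) : p₁ (dneg z) = σ (p₁ z) := by
  apply Subtype.ext
  simp [p₁, σ, dneg, hz]

theorem p₂_dneg (z : Dsc) (hz : ‖z.1‖ = 1) : p₂ (dneg z) = σ (p₂ z) := by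
  apply Subtype.ext
  simp [p₂, σ, dneg, hz]

theorem p_ctr : p₁ ctr = p₂ ctr := by
  apply Subtype.ext
  simp [p₁, p₂, ctr]

/-- a boundary point of the disc -/
def one' : Dsc := ⟨1, by simp⟩

theorem isConnected_A : IsConnected A := by
  rw [A_eq]
  refine IsConnected.union ⟨p₁ (dneg one'), ⟨_, rfl⟩, ⟨one', ?_⟩⟩ (isConnected_range continuous_p₁)
    (isConnected_range (continuous_σ.comp continuous_p₁))
  exact (p₁_dneg one' (by simp [one'])).symm

theorem isConnected_B : IsConnected B := by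
  rw [B_eq]
  refine IsConnected.union ⟨p₂ (dneg one'), ⟨_, rfl⟩, ⟨one', ?_⟩⟩ (isConnected_range continuous_p₂)
    (isConnected_range (continuous_σ.comp continuous_p₂))
  exact (p₂_dneg one' (by simp [one'])).symm

theorem A_union_B : A ∪ B = univ := by
  refine eq_univ_of_forall fun x => ?_
  rcases x.2.2 with h | h
  · exact Or.inr h
  · exact Or.inl h

theorem isClosed_A : IsClosed A := isClosed_eq (by fun_prop) continuous_const
theorem isClosed_B : IsClosed B := isClosed_eq (by fun_prop) continuous_const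

theorem ctr_mem : p₁ ctr ∈ A ∩ B := by simp [A, B, p₁, ctr]

theorem not_isConnected_inter : ¬ IsConnected (A ∩ B) := by
  intro h
  have h2 : σ (p₁ ctr) ∈ A ∩ B := by simp [A, B, p₁, ctr, σ]
  have := h.isPreconnected.intermediate_value h2 ctr_mem (f := fun x : X => x.1.1) (by fun_prop)
  obtain ⟨x, ⟨hA, hB⟩, hx⟩ := this (show (0 : ℝ) ∈ _ by simp [p₁, σ, ctr])
  have h3 := x.2.1
  simp only [A, B, mem_setOf_eq] at hA hB hx
  simp [hA, hB, hx] at h3

instance : ConnectedSpace X := by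
  rw [connectedSpace_iff_univ, ← A_union_B]
  exact IsConnected.union ⟨_, ctr_mem⟩ isConnected_A isConnected_B

/-- four discs cover `X` -/
noncomputable def cov : (Dsc ⊕ Dsc) ⊕ (Dsc ⊕ Dsc) → X :=
  Sum.elim (Sum.elim p₁ (σ ∘ p₁)) (Sum.elim p₂ (σ ∘ p₂))

theorem continuous_cov : Continuous cov :=
  (continuous_p₁.sumElim (continuous_σ.comp continuous_p₁)).sumElim
    (continuous_p₂.sumElim (continuous_σ.comp continuous_p₂))

theorem surjective_cov : Function.Surjective cov := by
  rw [← range_eq_univ, cov, Sum.elim_range, Sum.elim_range, Sum.elim_range, ← A_eq, ← B_eq,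
    A_union_B]

instance : CompactSpace X := surjective_cov.compactSpace continuous_cov

instance : LocallyPathConnectedSpace X :=
  (continuous_cov.isClosedMap.isQuotientMap continuous_cov
    surjective_cov).locallyPathConnectedSpace

theorem isLocalHomeomorph_f : IsLocalHomeomorph f :=
  isLocalHomeomorph_of_involution continuous_f surjective_f continuous_σ σ_ne f_σ f_fib

instance : ConnectedSpace Y := surjective_f.connectedSpace continuous_f

/-- two discs cover `Y` -/
noncomputable def q : Dsc ⊕ Dsc → Y := Sum.elim (f ∘ p₁) (f ∘ p₂)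

theorem continuous_q : Continuous q :=
  (continuous_f.comp continuous_p₁).sumElim (continuous_f.comp continuous_p₂)

theorem surjective_q : Function.Surjective q := by
  intro y
  obtain ⟨x, rfl⟩ := surjective_f y
  obtain ⟨c, rfl⟩ := surjective_cov x
  rcases c with (z | z) | (z | z)
  · exact ⟨Sum.inl z, rfl⟩
  · exact ⟨Sum.inl z, (f_σ _).symm⟩
  · exact ⟨Sum.inr z, rfl⟩
  · exact ⟨Sum.inr z, (f_σ _).symm⟩

theorem fib₁₁ (z z' : Dsc) (h : f (p₁ z) = f (p₁ z')) : z' = z ∨ (‖z.1‖ = 1 ∧ z' = dneg z) := by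
  rcases f_fib _ _ h with e | e
  · left
    have := congrArg (fun x : X => x.1.2.1) e
    exact Subtype.ext this
  · right
    have h1 : 1 - ‖z'.1‖ = -(1 - ‖z.1‖) := congrArg (fun x : X => x.1.1) e
    have h2 : z'.1 = -z.1 := congrArg (fun x : X => x.1.2.1) e
    exact ⟨by linarith [norm_le z, norm_le z'], Subtype.ext h2⟩

theorem fib₂₂ (z z' : Dsc) (h : f (p₂ z) = f (p₂ z')) : z' = z ∨ (‖z.1‖ = 1 ∧ z' = dneg z) := by
  rcases f_fib _ _ h with e | e
  · left
    have := congrArg (fun x : X => x.1.2.2) e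
    exact Subtype.ext this
  · right
    have h1 : 1 - ‖z'.1‖ = -(1 - ‖z.1‖) := congrArg (fun x : X => x.1.1) e
    have h2 : z'.1 = -z.1 := congrArg (fun x : X => x.1.2.2) e
    exact ⟨by linarith [norm_le z, norm_le z'], Subtype.ext h2⟩

theorem fib₁₂ (z z' : Dsc) (h : f (p₁ z) = f (p₂ z')) : z = ctr ∧ z' = ctr := by
  rcases f_fib _ _ h with e | e
  · have h1 : (0 : ℂ) = z.1 := congrArg (fun x : X => x.1.2.1) e
    have h2 : z'.1 = 0 := congrArg (fun x : X => x.1.2.2) e
    exact ⟨Subtype.ext h1.symm, Subtype.ext h2⟩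
  · have h1 : (0 : ℂ) = -z.1 := congrArg (fun x : X => x.1.2.1) e
    have h2 : z'.1 = -0 := congrArg (fun x : X => x.1.2.2) e
    exact ⟨Subtype.ext (by simpa [ctr] using h1.symm), Subtype.ext (by simpa [ctr] using h2)⟩

theorem log_Y (g : Y → Circle) (hg : Continuous g) :
    ∃ h : Y → ℝ, Continuous h ∧ ∀ y, Circle.exp (h y) = g y := by
  obtain ⟨θ, hθ⟩ := Circle.exp_surjective (g (f (p₁ ctr)))
  obtain ⟨h₁, hc₁, h0₁, hl₁, he₁⟩ := disc_log (g ∘ f ∘ p₁)
    (hg.comp (continuous_f.comp continuous_p₁)) θ hθ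
    (fun z hz => by simp only [Function.comp_apply, p₁_dneg z hz, f_σ])
  obtain ⟨h₂, hc₂, h0₂, hl₂, he₂⟩ := disc_log (g ∘ f ∘ p₂)
    (hg.comp (continuous_f.comp continuous_p₂)) θ (by rw [hθ, p_ctr]; rfl)
    (fun z hz => by simp only [Function.comp_apply, p₂_dneg z hz, f_σ])
  let H : Dsc ⊕ Dsc → ℝ := Sum.elim h₁ h₂
  have hH : ∀ a b, q a = q b → H a = H b := by
    rintro (z | z) (z' | z') h
    · rcases fib₁₁ z z' h with rfl | ⟨hz, rfl⟩
      · rfl
      · exact (he₁ z hz).symm
    · obtain ⟨rfl, rfl⟩ := fib₁₂ z z' h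
      exact h0₁.trans h0₂.symm
    · obtain ⟨rfl, rfl⟩ := fib₁₂ z' z h.symm
      exact h0₂.trans h0₁.symm
    · rcases fib₂₂ z z' h with rfl | ⟨hz, rfl⟩
      · rfl
      · exact (he₂ z hz).symm
  have hq : IsQuotientMap q := continuous_q.isClosedMap.isQuotientMap continuous_q surjective_q
  choose s hs using surjective_q
  have hcomp : (H ∘ s) ∘ q = H := funext fun a => hH _ _ (hs _)
  refine ⟨H ∘ s, hq.continuous_iff.2 (by rw [hcomp]; exact hc₁.sumElim hc₂), fun y => ?_⟩
  have : ∀ a, Circle.exp (H a) = g (q a) := by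
    rintro (z | z)
    · exact hl₁ z
    · exact hl₂ z
  rw [Function.comp_apply, this, hs]

end Pool.Agent.MP_a6a8af_gt.H97
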