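import Mathlib

/-!
General lemmas: free involutions give local homeomorphisms; a space on which every circle-valued
map has a continuous argument is unicoherent; maps on a disc have continuous arguments.
-/

set_option autoImplicit false

open Set Filter Topology

namespace Pool.Agent.MP_a6a8af_gt.H97

theorem isLocalHomeomorph_of_involution {X Y : Type} [TopologicalSpace X] [CompactSpace X]
    [T2Space X] [TopologicalSpace Y] [T2Space Y] {f : X → Y} (hf : Continuous f)
    (hs : Function.Surjective f) {σ : X → X} (hσ : Continuous σ) (hfree : ∀ x, σ x ≠ x)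
    (hfσ : ∀ x, f (σ x) = f x) (hfib : ∀ x x', f x = f x' → x' = x ∨ x' = σ x) :
    IsLocalHomeomorph f := by
  have hq : IsQuotientMap f := hf.isClosedMap.isQuotientMap hf hs
  have hopen : IsOpenMap f := by
    intro U hU
    rw [← hq.isOpen_preimage]
    have : f ⁻¹' (f '' U) = U ∪ σ ⁻¹' U := by
      ext x
      constructor
      · rintro ⟨u, hu, hux⟩
        rcases hfib x u hux.symm with rfl | rfl
        · exact Or.inl hu
        · exact Or.inr hu
      · rintro (hx | hx)
        · exact ⟨x, hx, rfl⟩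
        · exact ⟨σ x, hx, hfσ x⟩
    rw [this]
    exact hU.union (hU.preimage hσ)
  rw [isLocalHomeomorph_iff_isOpenEmbedding_restrict]
  intro x
  obtain ⟨U, V, hU, hV, hxU, hxV, hUV⟩ := t2_separation (hfree x).symm
  have hW : IsOpen (U ∩ σ ⁻¹' V) := hU.inter (hV.preimage hσ)
  refine ⟨U ∩ σ ⁻¹' V, hW.mem_nhds ⟨hxU, hxV⟩, ?_⟩
  refine IsOpenEmbedding.of_continuous_injective_isOpenMap (hf.comp continuous_subtype_val) ?_
    (hopen.comp hW.isOpenMap_subtype_val)
  rintro ⟨a, ha⟩ ⟨b, hb⟩ hab
  rcases hfib a b hab with rfl | rfl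
  · rfl
  · exact absurd ha.2 (Set.disjoint_left.1 hUV hb.1)

theorem unicoherent_of_log {Y : Type} [MetricSpace Y] [PreconnectedSpace Y]
    (hlog : ∀ g : Y → Circle, Continuous g → ∃ h : Y → ℝ, Continuous h ∧ ∀ y, Circle.exp (h y) = g y)
    {P Q : Set Y} (hP : IsClosed P) (hQ : IsClosed Q) (hPc : IsConnected P) (hQc : IsConnected Q)
    (hPQ : P ∪ Q = univ) : IsConnected (P ∩ Q) := by
  classical
  constructor
  · have := isPreconnected_closed_iff.1 (isPreconnected_univ (α := Y)) P Q hP hQ hPQ.ge
      (by simpa using hPc.nonempty) (by simpa using hQc.nonempty)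
    simpa using this
  · rw [isPreconnected_closed_iff]
    intro t t' ht ht' hcov ⟨c, hc⟩ ⟨d, hd⟩
    by_contra hne
    have hdisj : Disjoint (P ∩ Q ∩ t) (P ∩ Q ∩ t') := by
      rw [Set.disjoint_left]
      intro y h1 h2
      exact hne ⟨y, h1.1, h1.2, h2.2⟩
    obtain ⟨φ, hφ0, hφ1, -⟩ := exists_continuous_zero_one_of_isClosed
      ((hP.inter hQ).inter ht) ((hP.inter hQ).inter ht') hdisj
    let g : Y → Circle := fun y =>
      if y ∈ P then Circle.exp (Real.pi * φ y) else Circle.exp (-(Real.pi * φ y))
    have hgP : ∀ y ∈ P, g y = Circle.exp (Real.pi * φ y) := fun y hy => if_pos hy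
    have hgQ : ∀ y ∈ Q, g y = Circle.exp (-(Real.pi * φ y)) := by
      intro y hy
      by_cases hyP : y ∈ P
      · rw [hgP y hyP]
        rcases hcov ⟨hyP, hy⟩ with h | h
        · have : φ y = 0 := hφ0 ⟨⟨hyP, hy⟩, h⟩
          simp [this]
        · have : φ y = 1 := hφ1 ⟨⟨hyP, hy⟩, h⟩
          rw [this, mul_one, show Real.pi = -Real.pi + 2 * Real.pi by ring, Circle.exp_add,
            Circle.exp_two_pi, mul_one]
          congr 1
          ring
      · exact if_neg hyP
    have hg : Continuous g := by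
      rw [← continuousOn_univ, ← hPQ]
      refine ContinuousOn.union_of_isClosed ?_ ?_ hP hQ
      · refine ContinuousOn.congr (f := fun y => Circle.exp (Real.pi * φ y)) ?_ hgP
        fun_prop
      · refine ContinuousOn.congr (f := fun y => Circle.exp (-(Real.pi * φ y))) ?_ hgQ
        fun_prop
    obtain ⟨h, hh, hhg⟩ := hlog g hg
    have e1 : h c - Real.pi * φ c = h d - Real.pi * φ d := by
      refine Circle.isCoveringMap_exp.constOn_of_comp (g := fun y => h y - Real.pi * φ y)
        hPc.isPreconnected (by fun_prop) ?_ hc.1.1 hd.1.1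
      have : ∀ a ∈ P, Circle.exp (h a - Real.pi * φ a) = 1 := by
        intro a ha
        rw [Circle.exp_sub, hhg, hgP a ha, div_self']
      intro a ha a' ha'
      rw [this a ha, this a' ha']
    have e2 : h c + Real.pi * φ c = h d + Real.pi * φ d := by
      refine Circle.isCoveringMap_exp.constOn_of_comp (g := fun y => h y + Real.pi * φ y)
        hQc.isPreconnected (by fun_prop) ?_ hc.1.2 hd.1.2
      have : ∀ a ∈ Q, Circle.exp (h a + Real.pi * φ a) = 1 := by
        intro a ha
        rw [Circle.exp_add, hhg, hgQ a ha, ← Circle.exp_add]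
        simp
      intro a ha a' ha'
      rw [this a ha, this a' ha']
    have h0 : φ c = 0 := hφ0 hc
    have h1 : φ d = 1 := hφ1 hd
    rw [h0, h1] at e1 e2
    linarith [Real.pi_pos]

/-- the closed unit disc -/
abbrev Dsc : Type := Metric.closedBall (0 : ℂ) 1

instance : LocallyPathConnectedSpace Dsc := (convex_closedBall (0 : ℂ) 1).locallyPathConnectedSpace

instance : ContractibleSpace Dsc :=
  (convex_closedBall (0 : ℂ) 1).contractibleSpace ⟨0, by simp⟩

instance : CompactSpace Dsc := isCompact_iff_compactSpace.1 (isCompact_closedBall _ _)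

/-- the centre of the disc -/
def ctr : Dsc := ⟨0, by simp⟩

theorem norm_le (z : Dsc) : ‖z.1‖ ≤ 1 := mem_closedBall_zero_iff.1 z.2

/-- the antipode in the disc -/
def dneg (z : Dsc) : Dsc := ⟨-z.1, mem_closedBall_zero_iff.2 (by simpa using norm_le z)⟩

/-- a circle-valued map on the disc which is even on the boundary has a continuous argument which
is even on the boundary -/
theorem disc_log (g : Dsc → Circle) (hg : Continuous g) (θ : ℝ) (hθ : Circle.exp θ = g ctr)
    (heven : ∀ z : Dsc, ‖z.1‖ = 1 → g (dneg z) = g z) :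
    ∃ h : Dsc → ℝ, Continuous h ∧ h ctr = θ ∧ (∀ z, Circle.exp (h z) = g z) ∧
      ∀ z : Dsc, ‖z.1‖ = 1 → h (dneg z) = h z := by
  obtain ⟨F, ⟨hF0, hF⟩, -⟩ :=
    Circle.isCoveringMap_exp.existsUnique_continuousMap_lifts ⟨g, hg⟩ ctr θ hθ
  have hF' : ∀ z, Circle.exp (F z) = g z := fun z => congrFun hF z
  refine ⟨F, F.continuous, hF0, hF', fun z hz => ?_⟩
  have hS : IsPreconnected {z : Dsc | ‖z.1‖ = 1} := by
    have h1 : IsPreconnected (Metric.sphere (0 : ℂ) 1) :=
      isPreconnected_sphere (by rw [Complex.rank_real_complex]; norm_num) 0 1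
    rw [← Topology.IsInducing.subtypeVal.isPreconnected_image]
    convert h1 using 1
    ext w
    constructor
    · rintro ⟨z, hz, rfl⟩
      simpa using hz
    · intro hw
      have hw' : ‖w‖ = 1 := by simpa using hw
      exact ⟨⟨w, by simp [hw']⟩, hw', rfl⟩
  have hneg : Continuous dneg := by
    unfold dneg
    fun_prop
  have key : F (dneg z) - F z = F (dneg (dneg z)) - F (dneg z) := by
    refine Circle.isCoveringMap_exp.constOn_of_comp (g := fun w => F (dneg w) - F w) hS
      (by fun_prop) ?_ hz (show ‖(dneg z).1‖ = 1 by simpa [dneg] using hz)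
    have : ∀ a : Dsc, ‖a.1‖ = 1 → Circle.exp (F (dneg a) - F a) = 1 := by
      intro a ha
      rw [Circle.exp_sub, hF', hF', heven a ha, div_self']
    intro a ha a' ha'
    rw [this a ha, this a' ha']
  have : dneg (dneg z) = z := Subtype.ext (neg_neg _)
  rw [this] at key
  linarith

end Pool.Agent.MP_a6a8af_gt.H97
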